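import Mathlib

/-! Project TD (owner helper93): the Tu-Deng conjecture is a theorem (proof by helper93, being
formalised by helper93), hence S14665 (MP_4ac633_lc: bent functions in 2m variables with algebraic
immunity m, for every m). This file: the statements needed to pass from the Tu-Deng inequality to
the frozen statement (Tu-Deng 2011), with proofs in the docstrings. -/

namespace W93.TD

open Finset

/-- binary digit sum -/
def wt (n : ℕ) : ℕ := (Nat.digits 2 n).sum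

/-- the Tu-Deng inequality for `k` (helper93 proves it for all `k ≥ 2`) -/
def TuDeng (k : ℕ) : Prop := ∀ t : ℕ, 0 < t → t < 2 ^ k - 1 →
  ((range (2 ^ k - 1) ×ˢ range (2 ^ k - 1)).filter
    (fun p => (p.1 + p.2) % (2 ^ k - 1) = t ∧ wt p.1 + wt p.2 ≤ k - 1)).card ≤ 2 ^ (k - 1)

/-- polynomial function of two variables with exponents below `2^k` -/
def P {F : Type} [Field F] (k : ℕ) (c : ℕ → ℕ → F) (x y : F) : F :=
  ∑ i ∈ range (2 ^ k), ∑ j ∈ range (2 ^ k), c i j * x ^ i * y ^ j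

/-- VAND (BCH bound): Vandermonde determinant. Proof: let `n = I.card`, enumerate `I` by
`e : Fin n ≃ I`; the matrix `M s i = (a^(s0+s))^(e i) = (a^(e i))^(s0) * (a^(e i))^s` is a (transposed)
Vandermonde matrix in the distinct nonzero numbers `a^(e i)` with columns scaled by
`(a^(e i))^s0 ≠ 0`; use Matrix.det_vandermonde_ne_zero_iff and
Matrix.eq_zero_of_mulVec_eq_zero (or Matrix.eq_zero_of_forall_index_sum_pow_mul_eq_zero). -/
def S_VAND : Prop := ∀ (F : Type) [Field F] (a : F) (I : Finset ℕ) (c : ℕ → F) (s0 : ℕ), a ≠ 0 →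
  (∀ i ∈ I, ∀ j ∈ I, a ^ i = a ^ j → i = j) →
  (∀ s, s0 ≤ s → s < s0 + I.card → ∑ i ∈ I, c i * (a ^ s) ^ i = 0) → ∀ i ∈ I, c i = 0

/-- COEF: coefficient extraction. With `n = 2^k - 1` and `y^n = 1` for `y ≠ 0`:
`P k c (γ y) y = ∑_{i,j<n} c i j γ^i y^(i+j) = ∑_{t<n} (∑_{i<n} c i ((t+n-i)%n) γ^i) y^t`
(for `i, t < n` the number `j = (t+n-i)%n` is the only `j < n` with `(i+j)%n = t`;
`y^(i+j) = y^((i+j)%n)`). A polynomial in `y` of degree `< n` with the `n` zeros `y ≠ 0` vanishes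
(Polynomial.card_roots' / eq_zero_of_natDegree_lt_card_of_eval_eq_zero'). -/
def S_COEF : Prop := ∀ (k : ℕ) (F : Type) [Field F] [Fintype F] (c : ℕ → ℕ → F) (γ : F),
  1 ≤ k → Fintype.card F = 2 ^ k → (∀ i j, (i = 2 ^ k - 1 ∨ j = 2 ^ k - 1) → c i j = 0) →
  (∀ y : F, y ≠ 0 → P k c (γ * y) y = 0) →
  ∀ t < 2 ^ k - 1, ∑ i ∈ range (2 ^ k - 1), c i ((t + (2 ^ k - 1) - i) % (2 ^ k - 1)) * γ ^ i = 0

/-- LIN: every `Z/2`-linear functional on `F × F` is a linearised polynomial. Proof: enough for a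
linear functional on `F` (restrict to `y = 0` and `x = 0`), composed with `algebraMap` a `Z/2`-linear
map `F → F`. The maps `x ↦ ∑_{s<k} b_s x^(2^s)`, `b ∈ F^k`, are `Z/2`-linear (Frobenius) and
different for different `b` (polynomials of degree `< 2^k` with `2^k` zeros), so there are
`(2^k)^k` of them, which is the number of all `Z/2`-linear maps `F → F` (`finrank = k`); injective +
equal cardinality gives surjective. -/
def S_LIN : Prop := ∀ (k : ℕ) (F : Type) [Field F] [Fintype F] [Algebra (ZMod 2) F],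
  Fintype.card F = 2 ^ k → ∀ l : F × F →ₗ[ZMod 2] ZMod 2, ∃ b b' : ℕ → F, ∀ x y : F,
  algebraMap (ZMod 2) F (l (x, y)) = ∑ s ∈ range k, (b s * x ^ (2 ^ s) + b' s * y ^ (2 ^ s))

/-- MUL: multiplication by `x^(2^s)` or `y^(2^s)` raises the degree by at most one. Proof: for
`i < 2^k`, `s < k` put `e = i + 2^s`, `wt e ≤ wt i + 1`; if `e < 2^k` put `r i = e`, otherwise
`r i = e - 2^k + 1 < 2^k`, `wt (r i) ≤ wt (e - 2^k) + 1 = wt e` and `x^(2^s) x^i = x^(r i)` as
`x^(2^k) = x`. Put `c' i' j = ∑ over i < 2^k with r i = i' of c i j`. -/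
def S_MUL : Prop := ∀ (k : ℕ) (F : Type) [Field F] [Fintype F], Fintype.card F = 2 ^ k →
  ∀ (d s : ℕ) (c : ℕ → ℕ → F), s < k → (∀ i j, d < wt i + wt j → c i j = 0) →
  (∃ c' : ℕ → ℕ → F, (∀ i j, d + 1 < wt i + wt j → c' i j = 0) ∧
    ∀ x y : F, x ^ (2 ^ s) * P k c x y = P k c' x y) ∧
  (∃ c' : ℕ → ℕ → F, (∀ i j, d + 1 < wt i + wt j → c' i j = 0) ∧
    ∀ x y : F, y ^ (2 ^ s) * P k c x y = P k c' x y)

/-- NOANN: no annihilators of degree below `k`. Here `a` is a primitive element of the field with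
`q = 2^k` elements; put `n = q - 1`. `c i j = 0` whenever `wt i + wt j ≥ k`, in particular if
`i = n` or `j = n` (`wt n = k`; `i, j ≤ n` in the sum `P`).
Proof. For `x = γ y`, `y ≠ 0` we have `P k c (γ y) y = ∑_{t < n} h_t(γ) y^t` with
`h_t(γ) = ∑ over (i,j), i, j < n, (i + j) % n = t, of c i j γ^i` (as `y^n = 1`). For fixed `γ` this
polynomial in `y` of degree `< n` vanishes at all `n` nonzero `y`, so `h_t(γ) = 0` for all `t`.
Fix `t`. For `i < n` there is exactly one `j = j_t(i) < n` with `(i + j) % n = t`; let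
`I = {i < n : wt i + wt (j_t i) ≤ k - 1}` (outside, `c i (j_t i) = 0`); the powers `a^i`, `i < n`
are distinct.
First part (zeros `γ = a^s`, `s < 2^(k-1)`): if `t > 0`, `I.card ≤ 2^(k-1)` by TuDeng, if `t = 0`,
`I = {0}` (for `0 < i < n`, `j_0 i = n - i` and `wt i + wt (n - i) = k`); apply S_VAND with `s0 = 0`.
Second part (zeros `γ = a^s`, `2^(k-1) ≤ s < n`, that is `2^(k-1) - 1` consecutive ones, and
`P c x 0 = 0`, `P c 0 y = 0` for all `x`, `y`, which gives `c i 0 = 0` and `c 0 j = 0` for all `i`,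
`j < 2^k`, polynomials of degree `< q` with `q` zeros): for `t > 0` replace `I` by
`I' = I \ {0, t}`; both `i = 0` (`j = t`) and `i = t` (`j = 0`) belong to `I` as
`wt t ≤ k - 1` for `0 < t < n`, so `I'.card ≤ 2^(k-1) - 2`, apply S_VAND with `s0 = 2^(k-1)`;
for `t = 0` use `c 0 0 = 0`. -/
def S_NOANN : Prop := ∀ (k : ℕ) (F : Type) [Field F] [Fintype F] (a : F) (c : ℕ → ℕ → F),
  2 ≤ k → TuDeng k → Fintype.card F = 2 ^ k → a ≠ 0 →
  (∀ i < 2 ^ k - 1, ∀ j < 2 ^ k - 1, a ^ i = a ^ j → i = j) →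
  (∀ i j, k ≤ wt i + wt j → c i j = 0) →
  ((∀ s < 2 ^ (k - 1), ∀ y : F, y ≠ 0 → P k c (a ^ s * y) y = 0) →
    ∀ x y : F, P k c x y = 0) ∧
  ((∀ s, 2 ^ (k - 1) ≤ s → s < 2 ^ k - 1 → ∀ y : F, y ≠ 0 → P k c (a ^ s * y) y = 0) →
    (∀ x : F, P k c x 0 = 0) → (∀ y : F, P k c 0 y = 0) →
    ∀ x y : F, P k c x y = 0)

/-- SPAN: Boolean functions of degree `≤ d` of linear functionals are polynomial functions in `x`,
`y` whose exponents satisfy `wt i + wt j ≤ d`.
Proof. Let `Q_d` be the set of functions `F → F → F` of the form `P k c` with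
`c i j = 0` for `wt i + wt j > d`; it is closed under sums and scalar multiples, increasing in `d`.
(1) Every `Z/2`-linear map `λ : F → F` is `x ↦ ∑_{s<k} b_s x^(2^s)`: these maps form an `F`-space of
dimension `k` inside the `F`-space of all `Z/2`-linear maps `F → F`, which has dimension `k` too
(the maps are different for different `b`, polynomials of degree `< q`); alternatively
linear independence of the `k` automorphisms (Dedekind). So linear functionals
`ℓ (x,y) = ℓ (x,0) + ℓ (0,y)` lie in `Q_1`, constants in `Q_0`.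
(2) `Q_d` times `x^(2^s)` or `y^(2^s)` (`s < k`) lies in `Q_(d+1)`: for `i < 2^k` put `e = i + 2^s`,
`wt e ≤ wt i + 1`; if `e < 2^k` fine, otherwise `x^e = x^(e - 2^k + 1)` (as `x^(2^k) = x`),
`e - 2^k + 1 < 2^k` and `wt (e - 2^k + 1) ≤ wt (e - 2^k) + 1 = wt e`. (`wt (m + 1) ≤ wt m + 1`,
`wt (i + 2^s) ≤ wt i + 1`.)
Induct over the number of factors and sum over `S`. -/
def S_SPAN : Prop := ∀ (k : ℕ) (F : Type) [Field F] [Fintype F] [Algebra (ZMod 2) F],
  Fintype.card F = 2 ^ k → ∀ (n d : ℕ) (l : Fin n → (F × F →ₗ[ZMod 2] ZMod 2))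
  (cc : Finset (Fin n) → ZMod 2), (∀ S, cc S ≠ 0 → S.card ≤ d) →
  ∃ c : ℕ → ℕ → F, (∀ i j, d < wt i + wt j → c i j = 0) ∧
    ∀ x y : F, algebraMap (ZMod 2) F (∑ S : Finset (Fin n), cc S * ∏ i ∈ S, l i (x, y)) = P k c x y

/-- BENT (partial spreads): `f (x, y) = g (x / y)` for `y ≠ 0`, `0` for `y = 0`, `g` balanced.
Proof. `∑_{x,y} (-1)^(f + l)` = sum over `y = 0`: `∑_x (-1)^(l (x,0))`, which is `2^k` or `0`
according as `l (·,0) = 0` or not; plus, with `x = γ y`,
`∑_γ (-1)^(g γ) ∑_{y ≠ 0} (-1)^(l (γ y, y)) = ∑_γ (-1)^(g γ) (2^k [L_γ = 0] - 1)` with the linear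
functional `L_γ y = l (γ y, y)`; `∑_γ (-1)^(g γ) = 0`. If `l (·,0) = 0`: `L_γ = l (0,·)` for all `γ`, so
the total is `2^k + 2^k * 0`. If `l (·,0) ≠ 0`: there is exactly one `γ` with `L_γ = 0`, that is
`l (γ y, 0) = - l (0, y)` for all `y`: the map `γ ↦ l (γ ·, 0)` from `F` to its `Z/2`-dual is linear
and injective, both have `2^k` elements. So the total is `± 2^k`. -/
def S_BENT : Prop := ∀ (k : ℕ) (F : Type) [Field F] [Fintype F] [DecidableEq F] [Algebra (ZMod 2) F],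
  Fintype.card F = 2 ^ k → 1 ≤ k → ∀ g : F → ZMod 2,
  (univ.filter (fun γ => g γ = 1)).card = 2 ^ (k - 1) →
  ∀ l : F × F →ₗ[ZMod 2] ZMod 2,
  (∑ p : F × F, (-1 : ℤ) ^ ((if p.2 = 0 then 0 else g (p.1 / p.2)) + l p).val) ^ 2 = 2 ^ (2 * k)

/-- the frozen statement S14665 for one `m` -/
def Main (m : ℕ) : Prop := ∃ f : (Fin (2*m) → ZMod 2) → ZMod 2,
    (∀ a : Fin (2*m) → ZMod 2,
      (∑ x : Fin (2*m) → ZMod 2, (-1 : ℤ) ^ (f x + ∑ i, a i * x i).val) ^ 2 = 2 ^ (2*m)) ∧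
    ∀ d : ℕ, ((∃ g : (Fin (2*m) → ZMod 2) → ZMod 2, g ≠ 0 ∧
        ((∀ x, f x * g x = 0) ∨ (∀ x, (f x + 1) * g x = 0)) ∧
        ∃ c : Finset (Fin (2*m)) → ZMod 2, (∀ S, c S ≠ 0 → S.card ≤ d) ∧
          ∀ x, g x = ∑ S : Finset (Fin (2*m)), c S * ∏ i ∈ S, x i) ↔ m ≤ d)

/-- NOANN is to be proved from VAND and COEF -/
def T_NOANN : Prop := S_VAND → S_COEF → S_NOANN

/-- SPAN is to be proved from LIN and MUL (induction over the number of factors, then sum over `S`) -/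
def T_SPAN : Prop := S_LIN → S_MUL → S_SPAN

/-- SMALL: `m = 0` (constant function `0`: the point space has one point; `g = 1` is a nonzero
annihilator of degree `0`) and `m = 1` (`f x = x 0 * x 1`; degree `0` annihilators of `f` or `f + 1`
are zero as `f` is not constant; `g x = x 0 + 1` annihilates `f` and has degree 1). -/
def S_SMALL : Prop := Main 0 ∧ Main 1

/-- FINAL: assembly for `m ≥ 2`. Take `F = GaloisField 2 m` (`Fintype.ofFinite`), a primitive element
`a` (`IsCyclic` units: `orderOf = 2^m - 1`), a `Z/2`-linear equivalence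
`φ : F ≃ₗ[ZMod 2] (Fin m → ZMod 2)`, and for `v : Fin (2*m) → ZMod 2` let `X v = φ.symm (v ∘ lo)`,
`Y v = φ.symm (v ∘ hi)` with `lo i = ⟨i, _⟩`, `hi i = ⟨m + i, _⟩`; `v ↦ (X v, Y v)` is a linear
equivalence onto `F × F`. `g γ = 1` iff `γ = a^s` for some `s < 2^(m-1)` (exactly `2^(m-1)` values as
the powers are distinct), `f v = if Y v = 0 then 0 else g (X v / Y v)`.
Bent: S_BENT for the functional `l p = ∑ i, a i * (v i)` transported by the equivalence.
Annihilator of degree `≤ d` for `d ≥ m`: the indicator of `Y v = 0`, that is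
`∏_{i : Fin m} (1 + v (hi i)) = ∑_{S ⊆ hi-coordinates} ∏_{i ∈ S} v i` (Finset.prod_one_add), of degree
`m`, nonzero, annihilates `f`.
No annihilator of degree `d < m`: given `g` with ANF `c` of degree `≤ d ≤ m - 1`, S_SPAN with
`l i (x, y) = i`-th coordinate of the vector belonging to `(x, y)` gives `c'` with
`wt i + wt j ≥ m → c' i j = 0` and `algebraMap (g v) = P m c' (X v) (Y v)`. If `f g = 0`:
`P m c' (a^s y) y = 0` for `s < 2^(m-1)`, `y ≠ 0`, first part of S_NOANN gives `g = 0`. If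
`(f + 1) g = 0`: `f = 0` on `y = 0`, on `x = 0` (`0` is not a power of `a`), and at `(a^s y, y)`
for `2^(m-1) ≤ s < 2^m - 1`, so `g = 0` there, second part. -/
def S_FINAL : Prop := (∀ k, 2 ≤ k → TuDeng k) → S_NOANN → S_SPAN → S_BENT → ∀ m, 2 ≤ m → Main m

end W93.TD
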