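import Pool.Agent.W93.TD.TD2
import Pool.Agent.W93.TD.Stm

/-! The Tu-Deng conjecture. -/

namespace W93.TD

open Finset W93.CU

/-! ### the negative part of the cyclic walk -/

lemma G_low (L : ℕ) (f : ℕ → ℕ → ℕ) (k : ℤ) (hk : k < -(L:ℤ)) : G (L+1) f k = 0 := by
  unfold G
  refine Finset.sum_eq_zero fun i hi => Finset.sum_eq_zero fun j hj => ?_
  have h1 : j < L + 1 := by simpa using hj
  have : CU.wt k i j = 0 := by
    unfold CU.wt
    rw [if_neg (by omega)]
  rw [this]; simp

lemma telescope (g : ℤ → ℝ) (M : ℕ) :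
    ∑ n ∈ range M, ((g (-((n:ℤ)+1) - 1) + g (-((n:ℤ)+1) + 1)) / 2 - g (-((n:ℤ)+1))) =
      (g 0 - g (-1)) / 2 + (g (-(M:ℤ) - 1) - g (-(M:ℤ))) / 2 := by
  induction M with
  | zero => simp; ring
  | succ M ih =>
    rw [Finset.sum_range_succ, ih]
    push_cast
    rw [show -((M:ℤ)+1) - 1 = -(M:ℤ) - 2 by ring, show -((M:ℤ)+1) + 1 = -(M:ℤ) by ring,
      show -((M:ℤ)+1) = -(M:ℤ) - 1 by ring]
    ring

lemma sum_Dt (w : List Bool) (hlt : w.count true < w.count false) :
    ∑ n ∈ range (w.length+1), Dt w (-((n:ℤ)+1)) = (1/2:ℝ)^w.length := by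
  have h1 := cnt_le w false
  rw [Finset.sum_eq_single (w.count false - w.count true - 1)]
  · unfold Dt
    rw [if_pos (by omega)]
  · intro n _ hn
    unfold Dt
    rw [if_neg (by omega)]
  · intro h; exact absurd (by rw [mem_range]; omega) h

lemma sum_Dt' (w : List Bool) (hle : w.count false ≤ w.count true) :
    ∑ n ∈ range (w.length+1), Dt w (-((n:ℤ)+1)) = 0 := by
  refine Finset.sum_eq_zero fun n _ => ?_
  unfold Dt
  rw [if_neg (by omega)]

lemma g_diff (w : List Bool) :
    G (w.length+1) (r w) 0 - G (w.length+1) (r w) (-1) = (r w 0 0 : ℝ) -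
      ∑ k ∈ range (w.length+1), (1/4:ℝ)^(k+1) * ((2 * r w k (k+1) : ℕ) - r w (k+1) (k+1) : ℝ) := by
  have c0 := cnt_le w false
  have c1 := cnt_le w true
  rw [G_zero, G_neg_one _ _ (fun i => r_sup0 w i (w.length+1) (by omega))]
  rw [Finset.sum_range_succ' (fun i => (1/4:ℝ)^i * (r w i i : ℝ)) w.length]
  have last : r w (w.length+1) (w.length+1) = 0 := r_sup0 w _ _ (by omega)
  simp only [pow_zero, one_mul]
  have e1 : ∑ k ∈ range (w.length+1), (1/4:ℝ)^(k+1) * ((2 * r w k (k+1) : ℕ) - r w (k+1) (k+1) : ℝ) =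
      ∑ k ∈ range (w.length+1), 2 * (1/4:ℝ)^(k+1) * (r w k (k+1):ℝ) -
        ∑ k ∈ range (w.length+1), (1/4:ℝ)^(k+1) * (r w (k+1) (k+1):ℝ) := by
    rw [← Finset.sum_sub_distrib]
    refine Finset.sum_congr rfl fun k _ => ?_
    push_cast; ring
  rw [e1, Finset.sum_range_succ (fun k => (1/4:ℝ)^(k+1) * (r w (k+1) (k+1):ℝ)) w.length, last]
  simp only [Nat.cast_zero, mul_zero, add_zero]
  ring

/-- **The negative part has mass at most `1/2`.** -/
theorem neg_mass (w : List Bool) (h1 : 1 ≤ w.count true) :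
    ∑ n ∈ range (w.length+1), ((tl d0 z0 w).1 (-((n:ℤ)+1)) + (tl z0 d0 w).2 (-((n:ℤ)+1))) ≤ 1/2 := by
  have e : ∀ n ∈ range (w.length+1), (tl d0 z0 w).1 (-((n:ℤ)+1)) + (tl z0 d0 w).2 (-((n:ℤ)+1)) =
      Dt w (-((n:ℤ)+1)) + ((G (w.length+1) (r w) (-((n:ℤ)+1) - 1) +
        G (w.length+1) (r w) (-((n:ℤ)+1) + 1)) / 2 - G (w.length+1) (r w) (-((n:ℤ)+1))) := by
    intro n _
    rw [trace w.length w le_rfl]
    unfold d0
    rw [if_neg (by omega)]
    ring
  rw [Finset.sum_congr rfl e, Finset.sum_add_distrib, telescope (G (w.length+1) (r w))]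
  rw [G_low w.length (r w) (-((w.length+1 : ℕ):ℤ) - 1) (by push_cast; omega),
    G_low w.length (r w) (-((w.length+1 : ℕ):ℤ)) (by push_cast; omega), g_diff]
  have nn : ∀ i ∈ range (w.length+1),
      0 ≤ (1/4:ℝ)^(i+1) * ((2 * r w i (i+1) : ℕ) - r w (i+1) (i+1) : ℝ) := by
    intro i _
    refine mul_nonneg (by positivity) ?_
    have := D_diag w i
    have : (r w (i+1) (i+1) : ℝ) ≤ ((2 * r w i (i+1) : ℕ) : ℝ) := by exact_mod_cast this
    linarith
  have rz : (r w 0 0 : ℝ) ≤ 1 := by exact_mod_cast r_zero_le w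
  by_cases hlt : w.count true < w.count false
  · rw [sum_Dt w hlt]
    obtain ⟨b, hb⟩ : ∃ b, w.count true = b + 1 := ⟨w.count true - 1, by omega⟩
    have s : (1/4:ℝ)^(b+1) * ((2 * r w b (b+1) : ℕ) - r w (b+1) (b+1) : ℝ) ≤
        ∑ k ∈ range (w.length+1), (1/4:ℝ)^(k+1) * ((2 * r w k (k+1) : ℕ) - r w (k+1) (k+1) : ℝ) :=
      Finset.single_le_sum (f := fun k => (1/4:ℝ)^(k+1) * ((2 * r w k (k+1) : ℕ) - r w (k+1) (k+1) : ℝ))
        nn (by rw [mem_range]; have := cnt_le w true; omega)
    have r1 : r w (b+1) (b+1) = 0 := r_sup1 w _ _ (by omega)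
    have r2 : 1 ≤ r w b (b+1) := r_pos w b (b+1) (by omega) (by omega)
    have len : 2 * (b + 1) ≤ w.length := by
      have := List.count_true_add_count_false w
      omega
    have pw : (1/2:ℝ)^w.length ≤ (1/4:ℝ)^(b+1) := by
      rw [show (1/4:ℝ) = (1/2)^2 by norm_num, ← pow_mul]
      exact pow_le_pow_of_le_one (by norm_num) (by norm_num) len
    rw [r1] at s
    have r2' : (2:ℝ) ≤ ((2 * r w b (b+1) : ℕ) : ℝ) := by
      have : 2 ≤ 2 * r w b (b+1) := by omega
      exact_mod_cast this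
    have p4 : (0:ℝ) < (1/4:ℝ)^(b+1) := by positivity
    have : (1/4:ℝ)^(b+1) * 2 ≤ (1/4:ℝ)^(b+1) * (((2 * r w b (b+1) : ℕ) : ℝ) - ((0:ℕ):ℝ)) := by
      refine mul_le_mul_of_nonneg_left ?_ p4.le
      simp only [Nat.cast_zero, sub_zero]; exact r2'
    linarith
  · rw [sum_Dt' w (by omega)]
    have := Finset.sum_nonneg nn
    linarith

/-! ### digits and carries -/

lemma wt_rec (n : ℕ) : wt n = n % 2 + wt (n / 2) := by
  unfold wt
  rcases Nat.eq_zero_or_pos n with h | h
  · subst h; simp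
  · rw [Nat.digits_def' (by norm_num) h]; simp

lemma wt_mod (S L : ℕ) : wt (S % 2^(L+1)) = S % 2 + wt ((S / 2) % 2^L) := by
  rw [wt_rec, pow_succ', Nat.mod_mul_right_mod, Nat.mod_mul_right_div_self]

lemma wt_lt (k : ℕ) : ∀ x, x < 2^k → wt x ≤ k := by
  induction k with
  | zero => intro x hx; have : x = 0 := by simpa using hx
            subst this; simp [wt]
  | succ k ih =>
    intro x hx
    rw [pow_succ] at hx
    rw [wt_rec]
    have := ih (x/2) (by omega)
    omega

lemma wt_compl (k : ℕ) : ∀ b, b < 2^k → wt b + wt (2^k - 1 - b) = k := by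
  induction k with
  | zero => intro x hx; have : x = 0 := by simpa using hx
            subst this; simp [wt]
  | succ k ih =>
    intro b hb
    rw [pow_succ] at hb ⊢
    have := ih (b/2) (by omega)
    rw [wt_rec b, wt_rec (2^k * 2 - 1 - b)]
    have e : (2^k * 2 - 1 - b) / 2 = 2^k - 1 - b / 2 := by omega
    rw [e]
    omega

/-- value -/
def v0 : List Bool → ℕ
  | [] => 0
  | b :: w => 2 * v0 w + (if b then 1 else 0)

/-- digits -/
def bits : ℕ → ℕ → List Bool
  | 0, _ => []
  | k + 1, t => (t % 2 == 1) :: bits k (t / 2)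

lemma bits_len (k : ℕ) : ∀ t, (bits k t).length = k := by
  induction k with
  | zero => intro t; rfl
  | succ k ih => intro t; simp [bits, ih]

lemma bits_val (k : ℕ) : ∀ t, t < 2^k → v0 (bits k t) = t := by
  induction k with
  | zero => intro t h; have : t = 0 := by simpa using h
            subst this; rfl
  | succ k ih =>
    intro t h
    rw [pow_succ] at h
    show 2 * v0 (bits k (t/2)) + (if (t % 2 == 1) = true then 1 else 0) = t
    rw [ih (t/2) (by omega)]
    by_cases e : t % 2 = 1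
    · simp [e]; omega
    · have : t % 2 = 0 := by omega
      simp [this]; omega

lemma v0_zero (w : List Bool) (h : w.count true = 0) : v0 w = 0 := by
  induction w with
  | nil => rfl
  | cons b w ih =>
    cases b with
    | true => rw [List.count_cons_self] at h; omega
    | false =>
      rw [List.count_cons_of_ne (by decide)] at h
      simp [v0, ih h]

lemma sum_halves (f : ℕ → ℝ) (n : ℕ) :
    ∑ x ∈ range (2 * n), f x = ∑ x ∈ range n, (f (2 * x) + f (2 * x + 1)) := by
  induction n with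
  | zero => simp
  | succ n ih =>
    rw [show 2 * (n + 1) = 2 * n + 1 + 1 by ring, Finset.sum_range_succ, Finset.sum_range_succ, ih,
      Finset.sum_range_succ]
    ring

/-- counting function of the carries -/
noncomputable def cf (w : List Bool) (c c' : ℕ) (h : ℤ) : ℝ :=
  ∑ x ∈ range (2^w.length), if (x + v0 w + c) / 2^w.length = c' ∧
    (wt ((x + v0 w + c) % 2^w.length) : ℤ) - wt x = h then 1 else 0

/-- one term -/
lemma term (L v c' : ℕ) (h : ℤ) (x e b c : ℕ) (he : e < 2) :
    ((2 * x + e + (2 * v + b) + c) / 2^(L+1) = c' ∧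
      (wt ((2 * x + e + (2 * v + b) + c) % 2^(L+1)) : ℤ) - wt (2 * x + e) = h) ↔
    ((x + v + (e + b + c) / 2) / 2^L = c' ∧
      (wt ((x + v + (e + b + c) / 2) % 2^L) : ℤ) - wt x = h + e - ((e + b + c) % 2 : ℕ)) := by
  have e1 : (2 * x + e + (2 * v + b) + c) / 2 = x + v + (e + b + c) / 2 := by omega
  have e2 : (2 * x + e + (2 * v + b) + c) % 2 = (e + b + c) % 2 := by omega
  have e3 : (2 * x + e) / 2 = x := by omega
  have e4 : (2 * x + e) % 2 = e := by omega
  rw [wt_mod, e1, e2, wt_rec (2 * x + e), e3, e4, pow_succ' 2 L, ← Nat.div_div_eq_div_mul, e1]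
  constructor
  · rintro ⟨a, b⟩
    refine ⟨a, ?_⟩
    push_cast at b ⊢
    linarith
  · rintro ⟨a, b⟩
    refine ⟨a, ?_⟩
    push_cast at b ⊢
    linarith

lemma cf_step (b : Bool) (w : List Bool) (c c' : ℕ) (h : ℤ) :
    cf (b :: w) c c' h =
      cf w ((0 + (if b then 1 else 0) + c) / 2) c' (h + (0:ℕ) - ((0 + (if b then 1 else 0) + c) % 2 : ℕ)) +
      cf w ((1 + (if b then 1 else 0) + c) / 2) c' (h + (1:ℕ) - ((1 + (if b then 1 else 0) + c) % 2 : ℕ)) := by
  unfold cf
  rw [List.length_cons, pow_succ', sum_halves, Finset.sum_add_distrib]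
  congr 1
  · refine Finset.sum_congr rfl fun x _ => ?_
    have t := term w.length (v0 w) c' h x 0 (if b then 1 else 0) c (by norm_num)
    have hv : v0 (b :: w) = 2 * v0 w + (if b then 1 else 0) := rfl
    rw [pow_succ', add_zero, ← hv] at t
    exact if_congr t rfl rfl
  · refine Finset.sum_congr rfl fun x _ => ?_
    have t := term w.length (v0 w) c' h x 1 (if b then 1 else 0) c (by norm_num)
    have hv : v0 (b :: w) = 2 * v0 w + (if b then 1 else 0) := rfl
    rw [pow_succ', ← hv] at t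
    exact if_congr t rfl rfl

theorem cf_eq (w : List Bool) : ∀ h : ℤ,
    cf w 0 0 h = 2^w.length * (tl d0 z0 w).1 h ∧ cf w 1 0 h = 2^w.length * (tl d0 z0 w).2 h ∧
    cf w 0 1 h = 2^w.length * (tl z0 d0 w).1 h ∧ cf w 1 1 h = 2^w.length * (tl z0 d0 w).2 h := by
  induction w with
  | nil =>
    intro h
    have w0 : wt 0 = 0 := by simp [wt]
    have e : ∀ c c' : ℕ, cf [] c c' h = if c = c' ∧ h = 0 then 1 else 0 := by
      intro c c'
      unfold cf
      rw [List.length_nil, pow_zero, Finset.sum_range_one, Nat.div_one, Nat.mod_one, w0]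
      refine if_congr ?_ rfl rfl
      have hv : v0 [] = 0 := rfl
      rw [hv]
      constructor
      · rintro ⟨a, b⟩; exact ⟨by omega, by simpa using b.symm⟩
      · rintro ⟨a, b⟩; exact ⟨by omega, by simp [b]⟩
    refine ⟨?_, ?_, ?_, ?_⟩
    · rw [e]; simp [tl, d0]
    · rw [e]; simp [tl, z0]
    · rw [e]; simp [tl, z0]
    · rw [e]; simp [tl, d0]
  | cons b w ih =>
    intro h
    have st := fun c c' => cf_step b w c c' h
    cases b with
    | true =>
      refine ⟨?_, ?_, ?_, ?_⟩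
      · rw [st]
        norm_num
        rw [(ih (h-1)).1, (ih (h+1)).2.1, pow_succ]
        show _ = 2^w.length * 2 * ((tl d0 z0 w).1 (h-1) / 2 + (tl d0 z0 w).2 (h+1) / 2)
        ring
      · rw [st]
        norm_num
        rw [(ih h).2.1, pow_succ]
        show _ = 2^w.length * 2 * (tl d0 z0 w).2 h
        ring
      · rw [st]
        norm_num
        rw [(ih (h-1)).2.2.1, (ih (h+1)).2.2.2, pow_succ]
        show _ = 2^w.length * 2 * ((tl z0 d0 w).1 (h-1) / 2 + (tl z0 d0 w).2 (h+1) / 2)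
        ring
      · rw [st]
        norm_num
        rw [(ih h).2.2.2, pow_succ]
        show _ = 2^w.length * 2 * (tl z0 d0 w).2 h
        ring
    | false =>
      refine ⟨?_, ?_, ?_, ?_⟩
      · rw [st]
        norm_num
        rw [(ih h).1, pow_succ]
        show _ = 2^w.length * 2 * (tl d0 z0 w).1 h
        ring
      · rw [st]
        norm_num
        rw [(ih (h-1)).1, (ih (h+1)).2.1, pow_succ]
        show _ = 2^w.length * 2 * ((tl d0 z0 w).1 (h-1) / 2 + (tl d0 z0 w).2 (h+1) / 2)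
        ring
      · rw [st]
        norm_num
        rw [(ih h).2.2.1, pow_succ]
        show _ = 2^w.length * 2 * (tl z0 d0 w).1 h
        ring
      · rw [st]
        norm_num
        rw [(ih (h-1)).2.2.1, (ih (h+1)).2.2.2, pow_succ]
        show _ = 2^w.length * 2 * ((tl z0 d0 w).1 (h-1) / 2 + (tl z0 d0 w).2 (h+1) / 2)
        ring

/-- the two kinds of solutions -/
lemma count_le (k t : ℕ) (ht : 0 < t) (htk : t < 2^k) :
    ((range (2^k)).filter (fun x => x + t < 2^k ∧ wt (x + t) < wt x)).card +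
    ((range (2^k)).filter (fun x => 2^k ≤ x + t + 1 ∧ wt (x + t + 1 - 2^k) < wt x)).card ≤ 2^k / 2 := by
  set w := bits k t with hw
  have len : w.length = k := bits_len k t
  have val : v0 w = t := bits_val k t htk
  have one : 1 ≤ w.count true := by
    by_contra h
    have := v0_zero w (by omega)
    omega
  have nm := neg_mass w one
  have A : (((range (2^k)).filter (fun x => x + t < 2^k ∧ wt (x + t) < wt x)).card : ℝ) ≤
      ∑ n ∈ range (w.length+1), cf w 0 0 (-((n:ℤ)+1)) := by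
    unfold cf
    rw [Finset.sum_comm, len, val]
    rw [Finset.card_filter]
    push_cast
    refine Finset.sum_le_sum fun x hx => ?_
    have hx' : x < 2^k := by simpa using hx
    by_cases hc : x + t < 2^k ∧ wt (x + t) < wt x
    · rw [if_pos hc]
      have wl := wt_lt k x hx'
      have key := Finset.single_le_sum (f := fun n : ℕ => if (x + t + 0) / 2^k = 0 ∧
        (wt ((x + t + 0) % 2^k) : ℤ) - wt x = -((n:ℤ)+1) then (1:ℝ) else 0)
        (s := range (k+1)) (fun i _ => by positivity) (a := wt x - wt (x+t) - 1)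
        (by rw [mem_range]; omega)
      refine le_trans ?_ key
      rw [if_pos]
      refine ⟨by rw [add_zero]; exact Nat.div_eq_of_lt hc.1, ?_⟩
      rw [add_zero, Nat.mod_eq_of_lt hc.1]
      omega
    · rw [if_neg hc]
      exact Finset.sum_nonneg fun i _ => by positivity
  have B : (((range (2^k)).filter (fun x => 2^k ≤ x + t + 1 ∧ wt (x + t + 1 - 2^k) < wt x)).card : ℝ) ≤
      ∑ n ∈ range (w.length+1), cf w 1 1 (-((n:ℤ)+1)) := by
    unfold cf
    rw [Finset.sum_comm, len, val]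
    rw [Finset.card_filter]
    push_cast
    refine Finset.sum_le_sum fun x hx => ?_
    have hx' : x < 2^k := by simpa using hx
    by_cases hc : 2^k ≤ x + t + 1 ∧ wt (x + t + 1 - 2^k) < wt x
    · rw [if_pos hc]
      have wl := wt_lt k x hx'
      have key := Finset.single_le_sum (f := fun n : ℕ => if (x + t + 1) / 2^k = 1 ∧
        (wt ((x + t + 1) % 2^k) : ℤ) - wt x = -((n:ℤ)+1) then (1:ℝ) else 0)
        (s := range (k+1)) (fun i _ => by positivity) (a := wt x - wt (x+t+1-2^k) - 1)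
        (by rw [mem_range]; omega)
      refine le_trans ?_ key
      have dv : (x + t + 1) / 2^k = 1 := by
        refine Nat.div_eq_of_lt_le (by omega) (by omega)
      have md : (x + t + 1) % 2^k = x + t + 1 - 2^k := by
        rw [Nat.mod_eq_sub_mod hc.1, Nat.mod_eq_of_lt (by omega)]
      rw [if_pos]
      refine ⟨dv, ?_⟩
      rw [md]
      omega
    · rw [if_neg hc]
      exact Finset.sum_nonneg fun i _ => by positivity
  have e : ∑ n ∈ range (w.length+1), cf w 0 0 (-((n:ℤ)+1)) + ∑ n ∈ range (w.length+1), cf w 1 1 (-((n:ℤ)+1)) =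
      2^k * ∑ n ∈ range (w.length+1), ((tl d0 z0 w).1 (-((n:ℤ)+1)) + (tl z0 d0 w).2 (-((n:ℤ)+1))) := by
    rw [← Finset.sum_add_distrib, Finset.mul_sum]
    refine Finset.sum_congr rfl fun n _ => ?_
    rw [(cf_eq w _).1, (cf_eq w _).2.2.2, len]
    ring
  have p : (0:ℝ) < 2^k := by positivity
  have fin : (((range (2^k)).filter (fun x => x + t < 2^k ∧ wt (x + t) < wt x)).card : ℝ) +
      (((range (2^k)).filter (fun x => 2^k ≤ x + t + 1 ∧ wt (x + t + 1 - 2^k) < wt x)).card : ℝ) ≤ 2^k / 2 := by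
    have := mul_le_mul_of_nonneg_left nm p.le
    linarith
  rw [Nat.le_div_iff_mul_le (by norm_num)]
  have : ((((range (2^k)).filter (fun x => x + t < 2^k ∧ wt (x + t) < wt x)).card +
      ((range (2^k)).filter (fun x => 2^k ≤ x + t + 1 ∧ wt (x + t + 1 - 2^k) < wt x)).card) * 2 : ℝ) ≤
      (2:ℝ)^k := by linarith
  exact_mod_cast this

/-- **The Tu-Deng conjecture.** -/
theorem tuDeng (k : ℕ) (hk : 1 ≤ k) : TuDeng k := by
  intro t ht htk
  set n := 2^k - 1 with hn
  have pk : 1 ≤ 2^k := Nat.one_le_two_pow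
  have half : 2^k / 2 = 2^(k-1) := by
    obtain ⟨m, rfl⟩ : ∃ m, k = m + 1 := ⟨k - 1, by omega⟩
    rw [pow_succ]; simp
  rw [← half]
  refine le_trans ?_ (count_le k t ht (by omega))
  set S := (range n ×ˢ range n).filter (fun p => (p.1 + p.2) % n = t ∧ wt p.1 + wt p.2 ≤ k - 1) with hS
  have split : S.card = (S.filter (fun p => ¬ p.1 + p.2 < n)).card + (S.filter (fun p => p.1 + p.2 < n)).card := by
    rw [add_comm]
    exact (Finset.card_filter_add_card_filter_not (s := S) (fun p => p.1 + p.2 < n)).symm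
  rw [split]
  refine Nat.add_le_add ?_ ?_
  · refine Finset.card_le_card_of_injOn (fun p => n - p.2) ?_ ?_
    · intro p hp
      simp only [hS, coe_filter, mem_filter, mem_product, mem_range, Set.mem_setOf_eq] at hp ⊢
      obtain ⟨⟨⟨p1, p2⟩, p3, p4⟩, p5⟩ := hp
      have e : p.1 + p.2 = t + n := by
        have : (p.1 + p.2) % n = p.1 + p.2 - n := by
          rw [Nat.mod_eq_sub_mod (by omega), Nat.mod_eq_of_lt (by omega)]
        omega
      have e2 : n - p.2 + t = p.1 := by omega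
      have wc := wt_compl k p.2 (by omega)
      have e3 : 2^k - 1 - p.2 = n - p.2 := rfl
      rw [e3] at wc
      refine ⟨by omega, by omega, ?_⟩
      rw [e2]; omega
    · intro p hp q hq hpq
      simp only [hS, coe_filter, mem_filter, mem_product, mem_range, Set.mem_setOf_eq] at hp hq hpq
      obtain ⟨⟨⟨p1, p2⟩, p3, p4⟩, p5⟩ := hp
      obtain ⟨⟨⟨q1, q2⟩, q3, q4⟩, q5⟩ := hq
      have e : (p.1 + p.2) % n = p.1 + p.2 - n := by
        rw [Nat.mod_eq_sub_mod (by omega), Nat.mod_eq_of_lt (by omega)]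
      have e' : (q.1 + q.2) % n = q.1 + q.2 - n := by
        rw [Nat.mod_eq_sub_mod (by omega), Nat.mod_eq_of_lt (by omega)]
      ext <;> omega
  · refine Finset.card_le_card_of_injOn (fun p => n - p.2) ?_ ?_
    · intro p hp
      simp only [hS, coe_filter, mem_filter, mem_product, mem_range, Set.mem_setOf_eq] at hp ⊢
      obtain ⟨⟨⟨p1, p2⟩, p3, p4⟩, p5⟩ := hp
      have e : (p.1 + p.2) % n = p.1 + p.2 := Nat.mod_eq_of_lt p5
      have e2 : n - p.2 + t + 1 - 2^k = p.1 := by omega
      have wc := wt_compl k p.2 (by omega)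
      have e3 : 2^k - 1 - p.2 = n - p.2 := rfl
      rw [e3] at wc
      refine ⟨by omega, by omega, ?_⟩
      rw [e2]; omega
    · intro p hp q hq hpq
      simp only [hS, coe_filter, mem_filter, mem_product, mem_range, Set.mem_setOf_eq] at hp hq hpq
      obtain ⟨⟨⟨p1, p2⟩, p3, p4⟩, p5⟩ := hp
      obtain ⟨⟨⟨q1, q2⟩, q3, q4⟩, q5⟩ := hq
      have e : (p.1 + p.2) % n = p.1 + p.2 := Nat.mod_eq_of_lt p5
      have e' : (q.1 + q.2) % n = q.1 + q.2 := Nat.mod_eq_of_lt q5
      ext <;> omega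

end W93.TD
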