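import Pool.Agent.W93.CU2

/-! Distinct subsequences with given first and last letter; the cyclic counts `r`; the deletion
inequality for `r`. -/

namespace W93.TD

open Finset W93.CU

/-- total -/
def tt (p : (ℕ → ℕ → ℕ) × (ℕ → ℕ → ℕ)) (e : ℕ) (i j : ℕ) : ℕ :=
  (if i = 0 ∧ j = 0 then e else 0) + p.1 i j + p.2 i j

/-- numbers of distinct subsequences of `w` ending with the letter `b` and beginning with a one
(first component) resp. a zero (second component), with `i` ones and `j` zeros -/
def ee (b : Bool) : List Bool → (ℕ → ℕ → ℕ) × (ℕ → ℕ → ℕ)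
  | [] => (fun _ _ => 0, fun _ _ => 0)
  | true :: w => (fun i j => match i with
      | 0 => 0
      | i + 1 => tt (ee b w) (if b then 1 else 0) i j, (ee b w).2)
  | false :: w => ((ee b w).1, fun i j => match j with
      | 0 => 0
      | j + 1 => tt (ee b w) (if b then 0 else 1) i j)

def s11 (w : List Bool) (i j : ℕ) : ℕ := (ee true w).1 i j
def s01 (w : List Bool) (i j : ℕ) : ℕ := (ee true w).2 i j
def s10 (w : List Bool) (i j : ℕ) : ℕ := (ee false w).1 i j
def s00 (w : List Bool) (i j : ℕ) : ℕ := (ee false w).2 i j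

@[simp] lemma s11_nil (i j : ℕ) : s11 [] i j = 0 := rfl
@[simp] lemma s01_nil (i j : ℕ) : s01 [] i j = 0 := rfl
@[simp] lemma s10_nil (i j : ℕ) : s10 [] i j = 0 := rfl
@[simp] lemma s00_nil (i j : ℕ) : s00 [] i j = 0 := rfl
@[simp] lemma s11_t0 (w : List Bool) (j : ℕ) : s11 (true :: w) 0 j = 0 := rfl
@[simp] lemma s11_ts (w : List Bool) (i j : ℕ) : s11 (true :: w) (i+1) j =
    (if i = 0 ∧ j = 0 then 1 else 0) + s11 w i j + s01 w i j := rfl
@[simp] lemma s01_t (w : List Bool) (i j : ℕ) : s01 (true :: w) i j = s01 w i j := rfl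
@[simp] lemma s10_t0 (w : List Bool) (j : ℕ) : s10 (true :: w) 0 j = 0 := rfl
@[simp] lemma s10_ts (w : List Bool) (i j : ℕ) : s10 (true :: w) (i+1) j = s10 w i j + s00 w i j := by
  show (if i = 0 ∧ j = 0 then 0 else 0) + s10 w i j + s00 w i j = _
  simp
@[simp] lemma s00_t (w : List Bool) (i j : ℕ) : s00 (true :: w) i j = s00 w i j := rfl
@[simp] lemma s11_f (w : List Bool) (i j : ℕ) : s11 (false :: w) i j = s11 w i j := rfl
@[simp] lemma s10_f (w : List Bool) (i j : ℕ) : s10 (false :: w) i j = s10 w i j := rfl
@[simp] lemma s01_f0 (w : List Bool) (i : ℕ) : s01 (false :: w) i 0 = 0 := rfl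
@[simp] lemma s01_fs (w : List Bool) (i j : ℕ) : s01 (false :: w) i (j+1) = s11 w i j + s01 w i j := by
  show (if i = 0 ∧ j = 0 then 0 else 0) + s11 w i j + s01 w i j = _
  simp
@[simp] lemma s00_f0 (w : List Bool) (i : ℕ) : s00 (false :: w) i 0 = 0 := rfl
@[simp] lemma s00_fs (w : List Bool) (i j : ℕ) : s00 (false :: w) i (j+1) =
    (if i = 0 ∧ j = 0 then 1 else 0) + s10 w i j + s00 w i j := rfl

/-- shift in the first variable -/
def pl (f : ℕ → ℕ → ℕ) (i j : ℕ) : ℕ := match i with
  | 0 => 0
  | i + 1 => f i j
/-- shift in the second variable -/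
def pr (f : ℕ → ℕ → ℕ) (i j : ℕ) : ℕ := match j with
  | 0 => 0
  | j + 1 => f i j

@[simp] lemma pl_0 (f : ℕ → ℕ → ℕ) (j : ℕ) : pl f 0 j = 0 := rfl
@[simp] lemma pl_s (f : ℕ → ℕ → ℕ) (i j : ℕ) : pl f (i+1) j = f i j := rfl
@[simp] lemma pr_0 (f : ℕ → ℕ → ℕ) (i : ℕ) : pr f i 0 = 0 := rfl
@[simp] lemma pr_s (f : ℕ → ℕ → ℕ) (i j : ℕ) : pr f i (j+1) = f i j := rfl

/-- the cyclic counts -/
def r : List Bool → ℕ → ℕ → ℕ
  | [] => fun _ _ => 0
  | true :: w => fun i j => pl (r w) i j + s00 w i (j+1)
  | false :: w => fun i j => pr (r w) i j + s11 w (i+1) j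

@[simp] lemma r_nil (i j : ℕ) : r [] i j = 0 := rfl
@[simp] lemma r_t (w : List Bool) (i j : ℕ) : r (true :: w) i j = pl (r w) i j + s00 w i (j+1) := rfl
@[simp] lemma r_f (w : List Bool) (i j : ℕ) : r (false :: w) i j = pr (r w) i j + s11 w (i+1) j := rfl

lemma zeros (w : List Bool) : (∀ j, s11 w 0 j = 0) ∧ (∀ j, s10 w 0 j = 0) ∧ (∀ j, s01 w 0 j = 0) ∧
    (∀ i, s01 w i 0 = 0) ∧ (∀ i, s00 w i 0 = 0) ∧ (∀ i, s10 w i 0 = 0) := by
  induction w with
  | nil => simp
  | cons b w ih =>
    obtain ⟨a1, a2, a3, a4, a5, a6⟩ := ih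
    cases b with
    | true =>
      refine ⟨fun j => by simp, fun j => by simp, fun j => by simp [a3], fun i => by simp [a4],
        fun i => by simp [a5], fun i => ?_⟩
      cases i with
      | zero => simp
      | succ i => simp [a5, a6]
    | false =>
      refine ⟨fun j => by simp [a1], fun j => by simp [a2], fun j => ?_, fun i => by simp,
        fun i => by simp, fun i => by simp [a6]⟩
      cases j with
      | zero => simp
      | succ j => simp [a1, a3]

/-- deletion of the first letter -/
lemma F (w : List Bool) :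
    (∀ i j, s11 w (i+1) j ≤ s11 w i j + s01 w i j + (if i = 0 ∧ j = 0 then 1 else 0)) ∧
    (∀ i j, s10 w (i+1) j ≤ s10 w i j + s00 w i j) ∧
    (∀ i j, s00 w i (j+1) ≤ s00 w i j + s10 w i j + (if i = 0 ∧ j = 0 then 1 else 0)) ∧
    (∀ i j, s01 w i (j+1) ≤ s01 w i j + s11 w i j) := by
  induction w with
  | nil => simp
  | cons b w ih =>
    obtain ⟨f1, f2, f3, f4⟩ := ih
    obtain ⟨z1, z2, z3, z4, z5, z6⟩ := zeros w
    cases b with
    | true =>
      have m11 : ∀ i j, s11 w i j ≤ s11 (true :: w) i j := by
        intro i j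
        cases i with
        | zero => simp [z1]
        | succ i => have := f1 i j; rw [s11_ts]; omega
      have m10 : ∀ i j, s10 w i j ≤ s10 (true :: w) i j := by
        intro i j
        cases i with
        | zero => simp [z2]
        | succ i => have := f2 i j; rw [s10_ts]; omega
      refine ⟨fun i j => ?_, fun i j => ?_, fun i j => ?_, fun i j => ?_⟩
      · have := m11 i j; rw [s11_ts, s01_t]; omega
      · have := m10 i j; rw [s10_ts, s00_t]; omega
      · have := m10 i j; have := f3 i j; rw [s00_t, s00_t]; omega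
      · have := m11 i j; have := f4 i j; rw [s01_t, s01_t]; omega
    | false =>
      have m00 : ∀ i j, s00 w i j ≤ s00 (false :: w) i j := by
        intro i j
        cases j with
        | zero => simp [z5]
        | succ j => have := f3 i j; rw [s00_fs]; omega
      have m01 : ∀ i j, s01 w i j ≤ s01 (false :: w) i j := by
        intro i j
        cases j with
        | zero => simp [z4]
        | succ j => have := f4 i j; rw [s01_fs]; omega
      refine ⟨fun i j => ?_, fun i j => ?_, fun i j => ?_, fun i j => ?_⟩
      · have := m01 i j; have := f1 i j; rw [s11_f, s11_f]; omega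
      · have := m00 i j; have := f2 i j; rw [s10_f, s10_f]; omega
      · have := m00 i j; rw [s00_fs, s10_f]; omega
      · have := m01 i j; rw [s01_fs, s11_f]; omega

lemma mono_t (w : List Bool) (i j : ℕ) : s11 w i j ≤ s11 (true :: w) i j ∧
    s10 w i j ≤ s10 (true :: w) i j := by
  obtain ⟨f1, f2, f3, f4⟩ := F w
  obtain ⟨z1, z2, z3, z4, z5, z6⟩ := zeros w
  cases i with
  | zero => simp [z1, z2]
  | succ i =>
    have := f1 i j; have := f2 i j
    rw [s11_ts, s10_ts]; omega

lemma mono_f (w : List Bool) (i j : ℕ) : s00 w i j ≤ s00 (false :: w) i j ∧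
    s01 w i j ≤ s01 (false :: w) i j := by
  obtain ⟨f1, f2, f3, f4⟩ := F w
  obtain ⟨z1, z2, z3, z4, z5, z6⟩ := zeros w
  cases j with
  | zero => simp [z4, z5]
  | succ j =>
    have := f3 i j; have := f4 i j
    rw [s00_fs, s01_fs]; omega

/-- deletion of the last letter -/
lemma FL (w : List Bool) :
    (∀ i j, s11 w (i+1) j ≤ s11 w i j + s10 w i j + (if i = 0 ∧ j = 0 then 1 else 0)) ∧
    (∀ i j, s01 w (i+1) j ≤ s01 w i j + s00 w i j) ∧
    (∀ i j, s00 w i (j+1) ≤ s00 w i j + s01 w i j + (if i = 0 ∧ j = 0 then 1 else 0)) ∧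
    (∀ i j, s10 w i (j+1) ≤ s10 w i j + s11 w i j) := by
  induction w with
  | nil => simp
  | cons b w ih =>
    obtain ⟨f1, f2, f3, f4⟩ := ih
    obtain ⟨z1, z2, z3, z4, z5, z6⟩ := zeros w
    cases b with
    | true =>
      refine ⟨fun i j => ?_, fun i j => ?_, fun i j => ?_, fun i j => ?_⟩
      · cases i with
        | zero => rw [s11_ts, z1, z3]; simp
        | succ i =>
          have a := f1 i j; have b := f2 i j
          have e : ¬ (i + 1 = 0 ∧ j = 0) := by omega
          rw [s11_ts, s11_ts, s10_ts, if_neg e]; omega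
      · rw [s01_t, s01_t, s00_t]; exact f2 i j
      · rw [s00_t, s00_t, s01_t]; exact f3 i j
      · cases i with
        | zero => simp
        | succ i =>
          have a := f3 i j; have b := f4 i j
          rw [s10_ts, s10_ts, s11_ts]; omega
    | false =>
      refine ⟨fun i j => ?_, fun i j => ?_, fun i j => ?_, fun i j => ?_⟩
      · rw [s11_f, s11_f, s10_f]; exact f1 i j
      · cases j with
        | zero => simp
        | succ j =>
          have a := f1 i j; have b := f2 i j
          rw [s01_fs, s01_fs, s00_fs]; omega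
      · cases j with
        | zero => rw [s00_fs, z6, z5]; simp
        | succ j =>
          have a := f3 i j; have b := f4 i j
          have e : ¬ (i = 0 ∧ j + 1 = 0) := by omega
          rw [s00_fs, s00_fs, s01_fs, if_neg e]; omega
      · rw [s10_f, s10_f, s11_f]; exact f4 i j

/-- comparison of neighbouring cyclic counts -/
lemma C (w : List Bool) :
    (∀ i j, r w i j ≤ pl (r w) i j + s00 w i (j+1)) ∧
    (∀ i j, r w i j ≤ pr (r w) i j + s11 w (i+1) j) := by
  induction w with
  | nil => simp
  | cons b w ih =>
    obtain ⟨c0, c1⟩ := ih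
    obtain ⟨g1, g2, g3, g4⟩ := FL w
    obtain ⟨z1, z2, z3, z4, z5, z6⟩ := zeros w
    cases b with
    | true =>
      refine ⟨fun i j => ?_, fun i j => ?_⟩
      · have : pl (r w) i j ≤ pl (r (true :: w)) i j := by
          cases i with
          | zero => simp
          | succ i => rw [pl_s, pl_s, r_t]; exact c0 i j
        rw [r_t, s00_t]; omega
      · rw [r_t, s11_ts]
        cases i with
        | zero =>
          rw [pl_0, z1, z3]
          cases j with
          | zero => have := g3 0 0; rw [z5, z3] at this; simpa using this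
          | succ j =>
            rw [pr_s, r_t, pl_0]
            have := g3 0 (j+1)
            rw [z3] at this
            have e : ¬ ((0:ℕ) = 0 ∧ j + 1 = 0) := by omega
            rw [if_neg e] at this
            omega
        | succ i =>
          rw [pl_s]
          have e : ¬ (i + 1 = 0 ∧ j = 0) := by omega
          have a := c1 i j
          have b := g3 (i+1) j
          rw [if_neg e] at b ⊢
          cases j with
          | zero =>
            rw [pr_0] at a ⊢
            rw [z5] at b
            omega
          | succ j =>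
            rw [pr_s] at a ⊢
            rw [r_t, pl_s]
            omega
    | false =>
      refine ⟨fun i j => ?_, fun i j => ?_⟩
      · rw [r_f, s00_fs]
        cases j with
        | zero =>
          rw [pr_0, z5, z6]
          cases i with
          | zero => have := g1 0 0; rw [z1, z2] at this; simpa using this
          | succ i =>
            rw [pl_s, r_f, pr_0]
            have := g1 (i+1) 0
            rw [z6] at this
            have e : ¬ (i + 1 = 0 ∧ (0:ℕ) = 0) := by omega
            rw [if_neg e] at this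
            omega
        | succ j =>
          rw [pr_s]
          have e : ¬ (i = 0 ∧ j + 1 = 0) := by omega
          have a := c0 i j
          have b := g1 i (j+1)
          rw [if_neg e] at b ⊢
          cases i with
          | zero =>
            rw [pl_0] at a ⊢
            rw [z1] at b
            omega
          | succ i =>
            rw [pl_s] at a ⊢
            rw [r_f, pr_s]
            omega
      · have : pr (r w) i j ≤ pr (r (false :: w)) i j := by
          cases j with
          | zero => simp
          | succ j => rw [pr_s, pr_s, r_f]; exact c1 i j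
        rw [r_f, s11_f]; omega

/-- deletion of a one -/
lemma H (w : List Bool) :
    (∀ i j, (i+1) * s00 w (i+1) (j+1) ≤ (i+j) * s00 w i (j+1)) ∧
    (∀ i j, (i+1) * s10 w (i+1) j ≤ (i+j) * s10 w i j + s00 w i j) ∧
    (∀ i j, (i+1) * s01 w (i+1) j ≤ (i+j) * s01 w i j + s00 w i j) ∧
    (∀ i j, (i+1) * s11 w (i+1) j ≤ (i+j+1) * s11 w i j + s01 w i j + s10 w i j +
      (if i = 0 ∧ j = 0 then 1 else 0)) := by
  induction w with
  | nil => simp
  | cons b w ih =>
    obtain ⟨h00, h10, h01, h11⟩ := ih
    obtain ⟨f1, f2, f3, f4⟩ := F w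
    obtain ⟨z1, z2, z3, z4, z5, z6⟩ := zeros w
    have E0 : ∀ i j, (i+1) * (s10 w (i+1) j + s00 w (i+1) j) ≤ (i+j) * (s10 w i j + s00 w i j) := by
      intro i j
      cases j with
      | zero => rw [z6, z5]; simp
      | succ j =>
        have a := h10 i (j+1); have b := h00 i j
        have e : (i + (j+1)) * (s10 w i (j+1) + s00 w i (j+1)) =
          ((i + (j+1)) * s10 w i (j+1) + s00 w i (j+1)) + (i + j) * s00 w i (j+1) := by ring
        rw [mul_add, e]; omega
    have E1 : ∀ i j, (i+1) * (s11 w (i+1) j + s01 w (i+1) j) ≤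
        (i+j+1) * (s11 w i j + s01 w i j) + s10 w i j + s00 w i j + (if i = 0 ∧ j = 0 then 1 else 0) := by
      intro i j
      have a := h11 i j; have b := h01 i j
      have e : (i+j+1) * (s11 w i j + s01 w i j) = (i+j+1) * s11 w i j + ((i+j) * s01 w i j + s01 w i j) := by
        ring
      rw [mul_add, e]; omega
    cases b with
    | true =>
      have m := mono_t w
      refine ⟨fun i j => ?_, fun i j => ?_, fun i j => ?_, fun i j => ?_⟩
      · rw [s00_t, s00_t]; exact h00 i j
      · rw [s10_ts, s00_t]
        cases i with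
        | zero => rw [z2, s10_t0]; simp
        | succ i =>
          rw [s10_ts]
          have a := E0 i j
          have b := f2 i j
          have e1 : (i + 1 + 1) * (s10 w (i+1) j + s00 w (i+1) j) =
            (i+1) * (s10 w (i+1) j + s00 w (i+1) j) + (s10 w (i+1) j + s00 w (i+1) j) := by ring
          have e2 : (i + 1 + j) * (s10 w i j + s00 w i j) =
            (i+j) * (s10 w i j + s00 w i j) + (s10 w i j + s00 w i j) := by ring
          rw [e1, e2]; omega
      · rw [s01_t, s01_t, s00_t]; exact h01 i j
      · rw [s11_ts, s01_t]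
        cases i with
        | zero => rw [z1, z3, s11_t0, s10_t0]; simp
        | succ i =>
          rw [s11_ts, s10_ts]
          have a := E1 i j
          have b := f1 i j
          have e0 : ¬ (i + 1 = 0 ∧ j = 0) := by omega
          rw [if_neg e0]
          generalize hz : (if i = 0 ∧ j = 0 then 1 else 0) = z at *
          have e1 : (i + 1 + 1) * (0 + s11 w (i+1) j + s01 w (i+1) j) =
            (i+1) * (s11 w (i+1) j + s01 w (i+1) j) + (s11 w (i+1) j + s01 w (i+1) j) := by ring
          have e2 : (i + 1 + j + 1) * (z + s11 w i j + s01 w i j) =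
            (i+j+1) * (s11 w i j + s01 w i j) + (s11 w i j + s01 w i j) + (i + j) * z + z + z := by ring
          rw [e1, e2]; omega
    | false =>
      have m := mono_f w
      refine ⟨fun i j => ?_, fun i j => ?_, fun i j => ?_, fun i j => ?_⟩
      · rw [s00_fs, s00_fs]
        have a := E0 i j
        have e0 : ¬ (i + 1 = 0 ∧ j = 0) := by omega
        rw [if_neg e0]
        have e1 : (i + 1) * (0 + s10 w (i+1) j + s00 w (i+1) j) = (i+1) * (s10 w (i+1) j + s00 w (i+1) j) := by
          ring
        rw [e1]
        refine a.trans (Nat.mul_le_mul_left _ ?_)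
        omega
      · rw [s10_f, s10_f]
        have := h10 i j; have := (m i j).1
        omega
      · cases j with
        | zero => simp
        | succ j =>
          rw [s01_fs, s01_fs, s00_fs]
          have a := E1 i j
          have e : (i + (j+1)) * (s11 w i j + s01 w i j) = (i+j+1) * (s11 w i j + s01 w i j) := by ring
          rw [e]; omega
      · rw [s11_f, s11_f, s10_f]
        have := h11 i j; have := (m i j).2
        omega

lemma G' (w : List Bool) : ∀ i j, (i+1) * s11 w (i+2) j ≤ (i+1+j) * s11 w (i+1) j + pr (r w) i j := by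
  induction w with
  | nil => simp
  | cons b w ih =>
    obtain ⟨f1, f2, f3, f4⟩ := F w
    obtain ⟨h00, h10, h01, h11⟩ := H w
    obtain ⟨z1, z2, z3, z4, z5, z6⟩ := zeros w
    obtain ⟨c0, c1⟩ := C w
    intro i j
    cases b with
    | true =>
      have e0 : ¬ (i + 1 = 0 ∧ j = 0) := by omega
      rw [s11_ts, s11_ts, if_neg e0]
      cases j with
      | zero =>
        rw [pr_0, z4, z4]
        have a := f1 i 0
        rw [z4] at a
        have : (0 + s11 w (i+1) 0 + 0) ≤ ((if i = 0 ∧ (0:ℕ) = 0 then 1 else 0) + s11 w i 0 + 0) := by omega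
        simpa using Nat.mul_le_mul_left (i+1) this
      | succ j =>
        rw [pr_s, r_t]
        have e1 : ¬ (i = 0 ∧ j + 1 = 0) := by omega
        rw [if_neg e1]
        cases i with
        | zero =>
          rw [pl_0, z1, z3]
          have a := f1 0 (j+1)
          have b := h01 0 (j+1)
          rw [z1, z3] at a
          rw [z3] at b
          have e2 : ¬ ((0:ℕ) = 0 ∧ j + 1 = 0) := by omega
          rw [if_neg e2] at a
          simp at a b ⊢
          omega
        | succ i =>
          rw [pl_s]
          have a := ih i (j+1)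
          rw [pr_s] at a
          have b := f1 (i+1) (j+1)
          have c := h01 (i+1) (j+1)
          have e2 : ¬ (i + 1 = 0 ∧ j + 1 = 0) := by omega
          rw [if_neg e2] at b
          have e3 : (i + 1 + 1) * (0 + s11 w (i+1+1) (j+1) + s01 w (i+1+1) (j+1)) =
            (i+1) * s11 w (i+2) (j+1) + s11 w (i+1+1) (j+1) + (i+1+1) * s01 w (i+1+1) (j+1) := by ring
          have e4 : (i + 1 + 1 + (j+1)) * (0 + s11 w (i+1) (j+1) + s01 w (i+1) (j+1)) =
            (i+1+(j+1)) * s11 w (i+1) (j+1) + s11 w (i+1) (j+1) +
            ((i+1+(j+1)) * s01 w (i+1) (j+1) + s01 w (i+1) (j+1)) := by ring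
          rw [e3, e4]
          omega
    | false =>
      rw [s11_f, s11_f]
      have a := ih i j
      cases j with
      | zero => simpa using a
      | succ j =>
        rw [pr_s] at a ⊢
        rw [r_f]
        have := c1 i j
        omega

/-- **The deletion inequality for the cyclic counts.** -/
theorem D (w : List Bool) : ∀ i j, (i+1) * r w (i+1) j ≤ (i+1+j) * r w i j := by
  induction w with
  | nil => simp
  | cons b w ih =>
    obtain ⟨h00, h10, h01, h11⟩ := H w
    obtain ⟨c0, c1⟩ := C w
    intro i j
    cases b with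
    | true =>
      rw [r_t, r_t, pl_s]
      have h := h00 i j
      cases i with
      | zero =>
        rw [pl_0]
        have a := c0 0 j
        rw [pl_0] at a
        have e : (0 + 1 + j) * (0 + s00 w 0 (j+1)) = (0 + j) * s00 w 0 (j+1) + s00 w 0 (j+1) := by ring
        rw [e, mul_add]
        omega
      | succ i =>
        rw [pl_s]
        have a := c0 (i+1) j
        rw [pl_s] at a
        have b := ih i j
        have e1 : (i + 1 + 1) * (r w (i+1) j + s00 w (i+1+1) (j+1)) =
          (i+1) * r w (i+1) j + r w (i+1) j + (i+1+1) * s00 w (i+1+1) (j+1) := by ring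
        have e2 : (i + 1 + 1 + j) * (r w i j + s00 w (i+1) (j+1)) =
          (i+1+j) * r w i j + r w i j + ((i+1+j) * s00 w (i+1) (j+1) + s00 w (i+1) (j+1)) := by ring
        rw [e1, e2]
        omega
    | false =>
      rw [r_f, r_f]
      have g : (i+1) * s11 w (i+1+1) j ≤ (i+1+j) * s11 w (i+1) j + pr (r w) i j := G' w i j
      cases j with
      | zero =>
        rw [pr_0] at g
        rw [pr_0, pr_0, zero_add, zero_add]
        exact g
      | succ j =>
        rw [pr_s] at g
        rw [pr_s, pr_s]
        have b := ih i j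
        have e1 : (i + 1 + (j + 1)) * (r w i j + s11 w (i+1) (j+1)) =
          (i+1+j) * r w i j + (r w i j + (i+1+(j+1)) * s11 w (i+1) (j+1)) := by ring
        rw [mul_add, e1]
        exact Nat.add_le_add b (g.trans (by rw [add_comm]))

lemma D_diag (w : List Bool) (k : ℕ) : r w (k+1) (k+1) ≤ 2 * r w k (k+1) := by
  have h := D w k (k+1)
  have e : (k + 1 + (k + 1)) * r w k (k+1) = (k+1) * (2 * r w k (k+1)) := by ring
  rw [e] at h
  exact Nat.le_of_mul_le_mul_left h (Nat.succ_pos k)

end W93.TD
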