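import Pool.Agent.W93.TD.TD1

/-! Supports and positivity; the generating function identity for the cyclic walk. -/

namespace W93.TD

open Finset W93.CU

/-! ### supports -/

lemma sup1 (w : List Bool) : ∀ i j, w.count true < i →
    s11 w i j = 0 ∧ s01 w i j = 0 ∧ s10 w i j = 0 ∧ s00 w i j = 0 := by
  induction w with
  | nil => intro i j _; simp
  | cons b w ih =>
    intro i j h
    cases b with
    | true =>
      rw [List.count_cons_self] at h
      obtain ⟨i, rfl⟩ : ∃ i', i = i' + 1 := ⟨i - 1, by omega⟩
      obtain ⟨a1, a2, a3, a4⟩ := ih i j (by omega)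
      obtain ⟨b1, b2, b3, b4⟩ := ih (i+1) j (by omega)
      have e : ¬ (i = 0 ∧ j = 0) := by omega
      rw [s11_ts, s01_t, s10_ts, s00_t, if_neg e]
      omega
    | false =>
      rw [List.count_cons_of_ne (by decide)] at h
      obtain ⟨a1, a2, a3, a4⟩ := ih i j (by omega)
      rw [s11_f, s10_f]
      cases j with
      | zero => exact ⟨a1, rfl, a3, rfl⟩
      | succ j =>
        obtain ⟨b1, b2, b3, b4⟩ := ih i j (by omega)
        have e : ¬ (i = 0 ∧ j = 0) := by omega
        rw [s01_fs, s00_fs, if_neg e]
        omega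

lemma sup0 (w : List Bool) : ∀ i j, w.count false < j →
    s11 w i j = 0 ∧ s01 w i j = 0 ∧ s10 w i j = 0 ∧ s00 w i j = 0 := by
  induction w with
  | nil => intro i j _; simp
  | cons b w ih =>
    intro i j h
    cases b with
    | false =>
      rw [List.count_cons_self] at h
      obtain ⟨j, rfl⟩ : ∃ j', j = j' + 1 := ⟨j - 1, by omega⟩
      obtain ⟨a1, a2, a3, a4⟩ := ih i j (by omega)
      obtain ⟨b1, b2, b3, b4⟩ := ih i (j+1) (by omega)
      have e : ¬ (i = 0 ∧ j = 0) := by omega
      rw [s11_f, s01_fs, s10_f, s00_fs, if_neg e]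
      omega
    | true =>
      rw [List.count_cons_of_ne (by decide)] at h
      obtain ⟨a1, a2, a3, a4⟩ := ih i j (by omega)
      rw [s01_t, s00_t]
      cases i with
      | zero => exact ⟨rfl, a2, rfl, a4⟩
      | succ i =>
        obtain ⟨b1, b2, b3, b4⟩ := ih i j (by omega)
        have e : ¬ (i = 0 ∧ j = 0) := by omega
        rw [s11_ts, s10_ts, if_neg e]
        omega

/-- `r` vanishes for `i ≥ ` number of ones -/
lemma r_sup1 (w : List Bool) : ∀ i j, w.count true ≤ i → r w i j = 0 := by
  induction w with
  | nil => intro i j _; rfl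
  | cons b w ih =>
    intro i j h
    cases b with
    | true =>
      rw [List.count_cons_self] at h
      obtain ⟨i, rfl⟩ : ∃ i', i = i' + 1 := ⟨i - 1, by omega⟩
      rw [r_t, pl_s, ih i j (by omega), (sup1 w (i+1) (j+1) (by omega)).2.2.2]
    | false =>
      rw [List.count_cons_of_ne (by decide)] at h
      rw [r_f, (sup1 w (i+1) j (by omega)).1]
      cases j with
      | zero => rfl
      | succ j => rw [pr_s, ih i j h]

lemma r_sup0 (w : List Bool) : ∀ i j, w.count false ≤ j → r w i j = 0 := by
  induction w with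
  | nil => intro i j _; rfl
  | cons b w ih =>
    intro i j h
    cases b with
    | false =>
      rw [List.count_cons_self] at h
      obtain ⟨j, rfl⟩ : ∃ j', j = j' + 1 := ⟨j - 1, by omega⟩
      rw [r_f, pr_s, ih i j (by omega), (sup0 w (i+1) (j+1) (by omega)).1]
    | true =>
      rw [List.count_cons_of_ne (by decide)] at h
      rw [r_t, (sup0 w i (j+1) (by omega)).2.2.2]
      cases i with
      | zero => rfl
      | succ i => rw [pl_s, ih i j h]

lemma s00_pos (w : List Bool) : ∀ j, j + 1 ≤ w.count false → 1 ≤ s00 w 0 (j+1) := by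
  induction w with
  | nil => intro j h; simp at h
  | cons b w ih =>
    intro j h
    cases b with
    | false =>
      rw [List.count_cons_self] at h
      rw [s00_fs]
      cases j with
      | zero => simp only [and_self, if_true]; omega
      | succ j => have := ih j (by omega); omega
    | true =>
      rw [List.count_cons_of_ne (by decide)] at h
      rw [s00_t]; exact ih j h

lemma s11_pos (w : List Bool) : ∀ i, i + 1 ≤ w.count true → 1 ≤ s11 w (i+1) 0 := by
  induction w with
  | nil => intro j h; simp at h
  | cons b w ih =>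
    intro i h
    cases b with
    | true =>
      rw [List.count_cons_self] at h
      rw [s11_ts]
      cases i with
      | zero => simp only [and_self, if_true]; omega
      | succ i => have := ih i (by omega); omega
    | false =>
      rw [List.count_cons_of_ne (by decide)] at h
      rw [s11_f]; exact ih i h

lemma r_pos (w : List Bool) : ∀ i j, i < w.count true → j < w.count false → 1 ≤ r w i j := by
  induction w with
  | nil => intro i j h; simp at h
  | cons b w ih =>
    intro i j hi hj
    cases b with
    | true =>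
      rw [List.count_cons_self] at hi
      rw [List.count_cons_of_ne (by decide)] at hj
      rw [r_t]
      cases i with
      | zero => have := s00_pos w j (by omega); omega
      | succ i => rw [pl_s]; have := ih i j (by omega) hj; omega
    | false =>
      rw [List.count_cons_self] at hj
      rw [List.count_cons_of_ne (by decide)] at hi
      rw [r_f]
      cases j with
      | zero => have := s11_pos w i (by omega); omega
      | succ j => rw [pr_s]; have := ih i j hi (by omega); omega

lemma r_zero_le (w : List Bool) : r w 0 0 ≤ 1 := by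
  have a := (C w).2 0 0
  have b := (FL w).1 0 0
  obtain ⟨z1, z2, z3, z4, z5, z6⟩ := zeros w
  rw [pr_0] at a
  rw [z1, z2] at b
  simp only [and_self, if_true] at b
  omega

/-! ### weighted sums -/

lemma G_add (L : ℕ) (f g : ℕ → ℕ → ℕ) (k : ℤ) :
    G L (fun i j => f i j + g i j) k = G L f k + G L g k := by
  unfold G
  push_cast
  simp only [mul_add, Finset.sum_add_distrib]

lemma G_delta (L e : ℕ) (k : ℤ) :
    G (L+1) (fun i j => if i = 0 ∧ j = 0 then e else 0) k = (if k = 0 then 1 else 0) * (e:ℝ) := by
  unfold G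
  rw [Finset.sum_eq_single 0]
  · rw [Finset.sum_eq_single 0]
    · simp [wt, eq_comm]
    · intro j _ hj
      simp [hj]
    · intro h; simp at h
  · intro i _ hi
    refine Finset.sum_eq_zero fun j _ => ?_
    simp [hi]
  · intro h; simp at h

lemma cnt_le (w : List Bool) (b : Bool) : w.count b ≤ w.length := List.count_le_length

section rec
variable (L : ℕ) (w : List Bool) (hw : w.length < L) (k : ℤ)
include hw

lemma g11_t : G (L+1) (s11 (true :: w)) k =
    ((if k - 1 = 0 then 1 else 0) + G (L+1) (s11 w) (k-1) + G (L+1) (s01 w) (k-1)) / 2 := by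
  rw [G_shift_left L (s11 (true :: w)) (fun i j => (if i = 0 ∧ j = 0 then 1 else 0) + s11 w i j + s01 w i j)
    (fun j => rfl) (fun i j => rfl)]
  · rw [G_add, G_add, G_delta]; simp
  · intro j
    have h1 := cnt_le w true
    obtain ⟨a1, a2, a3, a4⟩ := sup1 w L j (by omega)
    have e : ¬ (L = 0 ∧ j = 0) := by omega
    show (if L = 0 ∧ j = 0 then 1 else 0) + s11 w L j + s01 w L j = 0
    rw [if_neg e]; omega

lemma g10_t : G (L+1) (s10 (true :: w)) k = (G (L+1) (s10 w) (k-1) + G (L+1) (s00 w) (k-1)) / 2 := by
  rw [G_shift_left L (s10 (true :: w)) (fun i j => s10 w i j + s00 w i j)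
    (fun j => rfl) (fun i j => s10_ts w i j)]
  · rw [G_add]
  · intro j
    have h1 := cnt_le w true
    obtain ⟨a1, a2, a3, a4⟩ := sup1 w L j (by omega)
    show s10 w L j + s00 w L j = 0
    omega

lemma g00_f : G (L+1) (s00 (false :: w)) k =
    ((if k + 1 = 0 then 1 else 0) + G (L+1) (s10 w) (k+1) + G (L+1) (s00 w) (k+1)) / 2 := by
  rw [G_shift_right L (s00 (false :: w)) (fun i j => (if i = 0 ∧ j = 0 then 1 else 0) + s10 w i j + s00 w i j)
    (fun j => rfl) (fun i j => rfl)]
  · rw [G_add, G_add, G_delta]; simp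
  · intro i
    have h1 := cnt_le w false
    obtain ⟨a1, a2, a3, a4⟩ := sup0 w i L (by omega)
    have e : ¬ (i = 0 ∧ L = 0) := by omega
    show (if i = 0 ∧ L = 0 then 1 else 0) + s10 w i L + s00 w i L = 0
    rw [if_neg e]; omega

lemma g01_f : G (L+1) (s01 (false :: w)) k = (G (L+1) (s11 w) (k+1) + G (L+1) (s01 w) (k+1)) / 2 := by
  rw [G_shift_right L (s01 (false :: w)) (fun i j => s11 w i j + s01 w i j)
    (fun j => rfl) (fun i j => s01_fs w i j)]
  · rw [G_add]
  · intro i
    have h1 := cnt_le w false
    obtain ⟨a1, a2, a3, a4⟩ := sup0 w i L (by omega)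
    show s11 w i L + s01 w i L = 0
    omega

lemma gr_t : G (L+1) (r (true :: w)) k = G (L+1) (r w) (k-1) / 2 + 2 * G (L+1) (s00 w) (k-1) := by
  have e : r (true :: w) = fun i j => pl (r w) i j + s00 w i (j+1) := rfl
  rw [e, G_add]
  congr 1
  · refine G_shift_left L _ _ (fun j => rfl) (fun i j => rfl) (fun j => ?_) k
    have h1 := cnt_le w true
    exact r_sup1 w L j (by omega)
  · have := G_shift_right L (s00 w) (fun i j => s00 w i (j+1)) (fun i => (zeros w).2.2.2.2.1 i)
      (fun i j => rfl) (fun i => (sup0 w i (L+1) (by have := cnt_le w false; omega)).2.2.2) (k-1)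
    rw [show k - 1 + 1 = k by ring] at this
    rw [this]; ring

lemma gr_f : G (L+1) (r (false :: w)) k = G (L+1) (r w) (k+1) / 2 + 2 * G (L+1) (s11 w) (k+1) := by
  have e : r (false :: w) = fun i j => pr (r w) i j + s11 w (i+1) j := rfl
  rw [e, G_add]
  congr 1
  · refine G_shift_right L _ _ (fun j => rfl) (fun i j => rfl) (fun i => ?_) k
    have h1 := cnt_le w false
    exact r_sup0 w i L (by omega)
  · have := G_shift_left L (s11 w) (fun i j => s11 w (i+1) j) (fun i => (zeros w).1 i)
      (fun i j => rfl) (fun i => (sup1 w (L+1) i (by have := cnt_le w true; omega)).1) (k+1)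
    rw [show k + 1 - 1 = k by ring] at this
    rw [this]; ring

end rec

/-- point mass at zero -/
noncomputable def d0 (k : ℤ) : ℝ := if k = 0 then 1 else 0
/-- the zero function -/
def z0 (_ : ℤ) : ℝ := 0

/-- the entries of the transfer matrix -/
theorem entries (L : ℕ) (w : List Bool) (hw : w.length ≤ L) : ∀ h : ℤ,
    (tl d0 z0 w).1 h = d0 h + G (L+1) (s10 w) h + G (L+1) (s11 w) h - 2 * G (L+1) (s11 w) (h+1) ∧
    (tl d0 z0 w).2 h = G (L+1) (s00 w) (h-2) + G (L+1) (s01 w) (h-2) - 2 * G (L+1) (s01 w) (h-1) ∧
    (tl z0 d0 w).1 h = G (L+1) (s11 w) (h+2) + G (L+1) (s10 w) (h+2) - 2 * G (L+1) (s10 w) (h+1) ∧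
    (tl z0 d0 w).2 h = d0 h + G (L+1) (s01 w) h + G (L+1) (s00 w) h - 2 * G (L+1) (s00 w) (h-1) := by
  induction w with
  | nil =>
    intro h
    have z : ∀ k, G (L+1) (fun _ _ => 0) k = 0 := by intro k; simp [G]
    have e1 : s11 [] = fun _ _ => 0 := rfl
    have e2 : s10 [] = fun _ _ => 0 := rfl
    have e3 : s01 [] = fun _ _ => 0 := rfl
    have e4 : s00 [] = fun _ _ => 0 := rfl
    rw [e1, e2, e3, e4]
    simp [tl, z, z0]
  | cons b w ih =>
    have hw' : w.length ≤ L := by simp at hw; omega
    have hw2 : w.length < L := by simp at hw; omega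
    have ih := ih hw'
    intro h
    cases b with
    | true =>
      have t11 := g11_t L w hw2
      have t10 := g10_t L w hw2
      have e01 : s01 (true :: w) = s01 w := rfl
      have e00 : s00 (true :: w) = s00 w := rfl
      refine ⟨?_, ?_, ?_, ?_⟩
      · show (tl d0 z0 w).1 (h-1) / 2 + (tl d0 z0 w).2 (h+1) / 2 = _
        rw [(ih (h-1)).1, (ih (h+1)).2.1, t10, t11, t11]
        rw [show h + 1 - 2 = h - 1 by ring, show h + 1 - 1 = h by ring, show h - 1 + 1 = h by ring]
        unfold d0; ring
      · show (tl d0 z0 w).2 h = _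
        rw [(ih h).2.1, e01, e00]
      · show (tl z0 d0 w).1 (h-1) / 2 + (tl z0 d0 w).2 (h+1) / 2 = _
        rw [(ih (h-1)).2.2.1, (ih (h+1)).2.2.2, t10, t11, t10]
        rw [show h - 1 + 2 = h + 1 by ring, show h + 1 - 1 = h by ring, show h - 1 + 1 = h by ring,
          show h + 2 - 1 = h + 1 by ring]
        unfold d0; ring
      · show (tl z0 d0 w).2 h = _
        rw [(ih h).2.2.2, e01, e00]
    | false =>
      have t00 := g00_f L w hw2
      have t01 := g01_f L w hw2
      have e11 : s11 (false :: w) = s11 w := rfl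
      have e10 : s10 (false :: w) = s10 w := rfl
      refine ⟨?_, ?_, ?_, ?_⟩
      · show (tl d0 z0 w).1 h = _
        rw [(ih h).1, e11, e10]
      · show (tl d0 z0 w).1 (h-1) / 2 + (tl d0 z0 w).2 (h+1) / 2 = _
        rw [(ih (h-1)).1, (ih (h+1)).2.1, t00, t01, t01]
        rw [show h + 1 - 2 = h - 1 by ring, show h + 1 - 1 = h by ring, show h - 1 + 1 = h by ring,
          show h - 2 + 1 = h - 1 by ring]
        unfold d0; ring
      · show (tl z0 d0 w).1 h = _
        rw [(ih h).2.2.1, e11, e10]
      · show (tl z0 d0 w).1 (h-1) / 2 + (tl z0 d0 w).2 (h+1) / 2 = _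
        rw [(ih (h-1)).2.2.1, (ih (h+1)).2.2.2, t00, t01, t00]
        rw [show h - 1 + 2 = h + 1 by ring, show h + 1 - 1 = h by ring, show h - 1 + 1 = h by ring]
        unfold d0; ring

/-- the determinant term -/
noncomputable def Dt (w : List Bool) (h : ℤ) : ℝ :=
  if h = (w.count true : ℤ) - w.count false then (1/2)^w.length else 0

/-- **The trace formula.** -/
theorem trace (L : ℕ) (w : List Bool) (hw : w.length ≤ L) : ∀ h : ℤ,
    (tl d0 z0 w).1 h + (tl z0 d0 w).2 h = d0 h + Dt w h +
      (G (L+1) (r w) (h-1) + G (L+1) (r w) (h+1)) / 2 - G (L+1) (r w) h := by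
  induction w with
  | nil =>
    intro h
    have z : ∀ k, G (L+1) (fun _ _ => 0) k = 0 := by intro k; simp [G]
    have e1 : r [] = fun _ _ => 0 := rfl
    rw [e1]
    simp [tl, z, Dt, d0]
  | cons b w ih =>
    have hw' : w.length ≤ L := by simp at hw; omega
    have hw2 : w.length < L := by simp at hw; omega
    have ih := ih hw'
    have en := entries L w hw'
    intro h
    cases b with
    | true =>
      have tr := gr_t L w hw2
      have dt : Dt (true :: w) h = Dt w (h-1) / 2 := by
        unfold Dt
        rw [List.count_cons_self, List.count_cons_of_ne (by decide), List.length_cons, pow_succ]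
        by_cases hh : h - 1 = (w.count true : ℤ) - w.count false
        · rw [if_pos hh, if_pos (by push_cast; omega)]; ring
        · rw [if_neg hh, if_neg (by push_cast; omega)]; simp
      show (tl d0 z0 w).1 (h-1) / 2 + (tl d0 z0 w).2 (h+1) / 2 + (tl z0 d0 w).2 h = _
      have i1 := ih (h-1)
      rw [tr, tr, tr, dt]
      rw [show h - 1 - 1 = h - 2 by ring, show h + 1 - 1 = h by ring]
      rw [show h - 1 - 1 = h - 2 by ring, show h - 1 + 1 = h by ring] at i1
      have m01 := (en (h+1)).2.1
      have m11 := (en h).2.2.2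
      have m11' := (en (h-1)).2.2.2
      rw [show h + 1 - 2 = h - 1 by ring, show h + 1 - 1 = h by ring] at m01
      rw [show h - 1 - 1 = h - 2 by ring] at m11'
      linarith
    | false =>
      have tr := gr_f L w hw2
      have dt : Dt (false :: w) h = Dt w (h+1) / 2 := by
        unfold Dt
        rw [List.count_cons_self, List.count_cons_of_ne (by decide), List.length_cons, pow_succ]
        by_cases hh : h + 1 = (w.count true : ℤ) - w.count false
        · rw [if_pos hh, if_pos (by push_cast; omega)]; ring
        · rw [if_neg hh, if_neg (by push_cast; omega)]; simp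
      show (tl d0 z0 w).1 h + ((tl z0 d0 w).1 (h-1) / 2 + (tl z0 d0 w).2 (h+1) / 2) = _
      have i1 := ih (h+1)
      rw [tr, tr, tr, dt]
      rw [show h - 1 + 1 = h by ring, show h + 1 + 1 = h + 2 by ring]
      rw [show h + 1 - 1 = h by ring, show h + 1 + 1 = h + 2 by ring] at i1
      have m10 := (en (h-1)).2.2.1
      have m00 := (en h).1
      have m00' := (en (h+1)).1
      rw [show h - 1 + 2 = h + 1 by ring, show h - 1 + 1 = h by ring] at m10
      rw [show h + 1 + 1 = h + 2 by ring] at m00'
      linarith

end W93.TD
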